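import Pool.Agent.L5helper16.LG.Defs

/-!
# LG B1: the recursion of the hitting probabilities over one prime
-/

set_option autoImplicit false

namespace Pool.Agent.L5helper37.LG

open Finset MeasureTheory ProbabilityTheory Filter Topology
open Pool.Agent.L5helper86.UL Pool.Agent.L5helper16.LG

open Classical in
/-- the indicator of `Hit` -/
private noncomputable def ind (Q S : Finset ℕ) (a : ℕ → ℕ) : ℝ := if Hit a Q S then 1 else 0

private lemma ind_dep (Q S : Finset ℕ) : Dep Q (ind Q S) := by
  intro a b hab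
  have h : Hit a Q S ↔ Hit b Q S := by
    unfold Hit
    refine forall₂_congr fun n _ => exists_congr fun p => and_congr_right fun hp => ?_
    rw [hab p hp]
  unfold ind
  by_cases hb : Hit b Q S
  · rw [if_pos hb, if_pos (h.2 hb)]
  · rw [if_neg hb, if_neg fun h' => hb (h.1 h')]

private lemma ind_bd (Q S : Finset ℕ) (a : ℕ → ℕ) : |ind Q S a| ≤ 1 := by
  unfold ind
  split_ifs <;> simp

private lemma int_ind {Ω : Type} [MeasurableSpace Ω] (P : Measure Ω) (X : ℕ → Ω → ℕ) (h : Sys P X)
    (Q S : Finset ℕ) : ∫ ω, ind Q S (fun q => X q ω) ∂P = HP P X Q S := by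
  have hm : MeasurableSet {ω | Hit (fun p => X p ω) Q S} := by
    have h1 := h.meas_dep (ind_dep Q S) (measurableSet_singleton (1 : ℝ))
    have h2 : (fun ω => ind Q S (fun q => X q ω)) ⁻¹' {1} = {ω | Hit (fun p => X p ω) Q S} := by
      ext ω
      rw [Set.mem_preimage, Set.mem_singleton_iff, Set.mem_ofPred_eq]
      unfold ind
      by_cases hh : Hit (fun q => X q ω) Q S
      · simp [hh]
      · simp [hh]
    rwa [h2] at h1
  have h3 : (fun ω => ind Q S (fun q => X q ω)) =
      Set.indicator {ω | Hit (fun p => X p ω) Q S} (fun _ => (1 : ℝ)) := by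
    funext ω
    unfold ind
    by_cases hh : Hit (fun q => X q ω) Q S
    · rw [if_pos hh, Set.indicator_of_mem (show ω ∈ {ω | Hit (fun p => X p ω) Q S} from hh)]
    · rw [if_neg hh, Set.indicator_of_notMem (show ω ∉ {ω | Hit (fun p => X p ω) Q S} from hh)]
  rw [h3, integral_indicator hm]
  simp only [integral_const, MeasurableSet.univ, measureReal_restrict_apply, Set.univ_inter,
    smul_eq_mul, mul_one]
  rfl

private lemma hit_insert (a : ℕ → ℕ) (Q S : Finset ℕ) (p : ℕ) (hap : a p < p) :
    Hit a (insert p Q) S ↔ Hit a Q (S.filter fun n => n % p ≠ a p) := by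
  unfold Hit
  constructor
  · intro h n hn
    rw [mem_filter] at hn
    obtain ⟨q, hq, hq'⟩ := h n hn.1
    rcases mem_insert.1 hq with rfl | hq
    · exfalso
      apply hn.2
      have h1 : n % q = a q % q := hq'
      rwa [Nat.mod_eq_of_lt hap] at h1
    · exact ⟨q, hq, hq'⟩
  · intro h n hn
    by_cases hc : n % p = a p
    · refine ⟨p, mem_insert_self _ _, ?_⟩
      show n % p = a p % p
      rw [Nat.mod_eq_of_lt hap, hc]
    · obtain ⟨q, hq, hq'⟩ := h n (mem_filter.2 ⟨hn, hc⟩)
      exact ⟨q, mem_insert_of_mem hq, hq'⟩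

theorem b1 : Pool.Agent.L5helper16.LG.St_B1 := by
  intro Ω _ P X h
  have hP := h.prob
  refine ⟨?_, ?_⟩
  · intro S
    unfold HP
    split_ifs with hS
    · subst hS
      have : {ω | Hit (fun p => X p ω) ∅ (∅ : Finset ℕ)} = Set.univ := by
        ext ω
        simp [Hit]
      rw [this, probReal_univ]
    · obtain ⟨n, hn⟩ := Finset.nonempty_iff_ne_empty.2 hS
      have : {ω | Hit (fun p => X p ω) ∅ S} = ∅ := by
        ext ω
        rw [Set.mem_ofPred_eq]
        simp only [Set.mem_empty_iff_false, iff_false]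
        intro h1
        obtain ⟨q, hq, _⟩ := h1 n hn
        exact absurd hq (Finset.notMem_empty q)
      rw [this, measureReal_empty]
  · intro Q hQ p hp hpQ S
    have h1 := h.int_step hQ hp hpQ (G := fun r => ind Q (S.filter fun n => n % p ≠ r))
      (fun r => ind_dep Q _) (M := 1) (fun r a => ind_bd Q _ a)
    rw [← int_ind P X h]
    have h2 : (∫ ω, ind (insert p Q) S (fun q => X q ω) ∂P) =
        ∫ ω, ind Q (S.filter fun n => n % p ≠ X p ω) (fun q => X q ω) ∂P := by
      refine integral_congr_ae ?_
      filter_upwards [h.ae_lt hp] with ω hω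
      have h3 := hit_insert (fun q => X q ω) Q S p hω
      show ind (insert p Q) S (fun q => X q ω) =
        ind Q (S.filter fun n => n % p ≠ X p ω) (fun q => X q ω)
      unfold ind
      by_cases hb : Hit (fun q => X q ω) (insert p Q) S
      · rw [if_pos hb, if_pos (h3.1 hb)]
      · rw [if_neg hb, if_neg fun h' => hb (h3.2 h')]
    rw [h2]
    refine h1.trans ?_
    congr 1
    refine Finset.sum_congr rfl fun r _ => ?_
    exact int_ind P X h Q _

end Pool.Agent.L5helper37.LG
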